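import Pool.Agent.Lib.MPa37b3a.Final

/-!
# Uniform lattices of `SO(1,p) × SO(1,q)` are locally rigid in `SO(2,p+q)` relative to
`SO(1,p) × SO(1,q)`

Answer to Q1: NO. For all `p, q ≥ 2` every uniform lattice `Γ` of `SO(1,p) × SO(1,q)`
(reducible or irreducible) has the property that every homomorphism `Γ → SO(2,p+q)`
sufficiently close to the inclusion is conjugate into `SO(1,p) × SO(1,q)`; in particular
`Γ` has no non-trivial deformation into `SO(2,p+q)`.

Superrigidity is not used.  The two ingredients are: the vanishing of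
`H¹(Γ, Hom(ℝ^{1,p}, ℝ^{1,q}))`, proved directly (`Lib/MPa37b3a/Vanish.lean`), and a
rescaling argument producing an invariant graph (`Lib/MPa37b3a/Near.lean`).
-/

namespace Pool.Agent.Results.MP_a37b3a_al.NoDeformation

open Pool.Agent.Lib.MPa37b3a

theorem result :
    (¬ ∃ (p q : ℕ) (_ : 2 ≤ p) (_ : 2 ≤ q) (Γ : Subgroup (Hpq p q))
        (ρ : unitInterval → (Γ →* Gpq p q)),
        IsUniformLattice Γ ∧ IsDeformation (incl p q) ρ ∧ IsNontrivial (incl p q) ρ) ∧
    (∀ (p q : ℕ), 2 ≤ p → 2 ≤ q → ∀ Γ : Subgroup (Hpq p q),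
        IsUniformLattice Γ → LocallyConjInto (incl p q) Γ) := by
  constructor
  · rintro ⟨p, q, hp, hq, Γ, ρ, hΓ, hρ, hnt⟩
    exact no_deformation hp hq Γ hΓ ρ hρ hnt
  · intro p q hp hq Γ hΓ
    exact locallyConj hp hq Γ hΓ

end Pool.Agent.Results.MP_a37b3a_al.NoDeformation
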